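import Pool.Agent.helper87.FS.Spec

set_option autoImplicit false

namespace Pool.Agent.FS

open Polynomial Matrix Pool.Agent.helper42.NS

theorem KRY_dot (P : Pt) {t : ℕ} (b : Fin t → Bool) (u : Fin t → KP P)
    (h : ∑ j, ((ind b j : ℤ) : KP P) * u j = 0) : dotb b u = 0 := by
  rw [← h]
  unfold dotb ind
  apply Finset.sum_congr rfl
  intro j _
  split_ifs <;> simp

theorem KRY_bad {t k : ℕ} (H : Matrix (Fin t) (Fin t) ℤ) (B : Fin k → Fin t → Bool) (hH : IsGr H)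
    (hK : Kry H (Set.range fun i => ind (B i)) ≠ ⊤) : ∃ P : Pt, Bad P H B := by
  obtain ⟨P, u, hu0, hu, hb⟩ := PBH t H (Set.range fun i => ind (B i)) hH.2.2 hK
  exact ⟨P, u, hu, hu0, fun i => KRY_dot P (B i) u (hb (ind (B i)) ⟨i, rfl⟩)⟩

theorem KRY_zero {k : ℕ} (H : Matrix (Fin 0) (Fin 0) ℤ) (S : Set (Fin 0 → ℤ)) : Kry H S = ⊤ := by
  have _ := k
  exact Subsingleton.elim _ _

theorem KRY_card (k m : ℕ) : Set.ncard {W : Fin k → Fin m → Bool | True} = 2 ^ (k * m) := by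
  have h : {W : Fin k → Fin m → Bool | True} = Set.univ := by
    ext W
    simp
  rw [h, Set.ncard_univ, Nat.card_eq_fintype_card]
  simp only [Fintype.card_fun, Fintype.card_fin, Fintype.card_bool]
  rw [← pow_mul, mul_comm]

theorem KRY (h1 : CXF_stmt) (h2 : TOT_stmt) (h3 : EV2_stmt) (h4 : CMK_stmt) (h5 : BCR_stmt) : KRY_stmt := by
  have _ := h5
  intro L m hm
  set X : ℕ := 2 ^ (m.choose 2 + (3 * L + 3 * L + 5 * L) * m) with hX
  rcases Nat.eq_zero_or_pos m with h0 | hpos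
  · subst h0
    have he : {HB : Matrix (Fin 0) (Fin 0) ℤ × (Fin (3 * L + 3 * L + 5 * L) → Fin 0 → Bool) |
        IsGr HB.1 ∧ Kry HB.1 (Set.range fun i => ind (HB.2 i)) ≠ ⊤} = ∅ := by
      ext HB
      simp only [Set.mem_setOf_eq, Set.mem_empty_iff_false, iff_false, not_and, not_not]
      intro _
      exact KRY_zero (k := 0) _ _
    rw [he, Set.ncard_empty, Nat.zero_mul]
    exact Nat.zero_le _
  · set A1 : Set (Matrix (Fin m) (Fin m) ℤ × (Fin (3 * L + 3 * L + 5 * L) → Fin m → Bool)) :=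
      {HB | IsGr HB.1 ∧ ¬ GG (3 * L) (3 * L) m HB.1 (fst' (3 * L + 3 * L) (5 * L) HB.2) ∧ True} with hA1
    set A2 : Set (Matrix (Fin m) (Fin m) ℤ × (Fin (3 * L + 3 * L + 5 * L) → Fin m → Bool)) :=
      {HB | IsGr HB.1 ∧ ((∀ P : Pt, Above 2 P → ¬ Bad P HB.1 (fst' (3 * L + 3 * L) (5 * L) HB.2)) ∧
        ∀ P : Pt, crm P HB.1 (fst' (3 * L + 3 * L) (5 * L) HB.2) ≤ 1) ∧ ∃ P : Pt, Bad P HB.1 HB.2} with hA2
    have hsub : {HB : Matrix (Fin m) (Fin m) ℤ × (Fin (3 * L + 3 * L + 5 * L) → Fin m → Bool) |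
        IsGr HB.1 ∧ Kry HB.1 (Set.range fun i => ind (HB.2 i)) ≠ ⊤} ⊆ A1 ∪ A2 := by
      rintro HB ⟨hgr, hK⟩
      have hbad := KRY_bad HB.1 HB.2 hgr hK
      by_cases hG : GG (3 * L) (3 * L) m HB.1 (fst' (3 * L + 3 * L) (5 * L) HB.2)
      · right
        obtain ⟨t, rfl⟩ : ∃ t, m = t + 1 := ⟨m - 1, by omega⟩
        exact ⟨hgr, ⟨hG.2.2.1, hG.2.2.2⟩, hbad⟩
      · left
        exact ⟨hgr, hG, trivial⟩
    have hfin : (A1 ∪ A2).Finite := by
      refine (h1 m (3 * L + 3 * L + 5 * L)).1.subset ?_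
      rintro HB (h | h)
      · exact h.1
      · exact h.1
    have hc : Set.ncard {HB : Matrix (Fin m) (Fin m) ℤ × (Fin (3 * L + 3 * L + 5 * L) → Fin m → Bool) |
        IsGr HB.1 ∧ Kry HB.1 (Set.range fun i => ind (HB.2 i)) ≠ ⊤} ≤ A1.ncard + A2.ncard :=
      (Set.ncard_le_ncard hsub hfin).trans (Set.ncard_union_le A1 A2)
    have hn1 : A1.ncard * 2 ^ (L + 1) ≤ 5 * X := by
      have e1 := h4 m (3 * L + 3 * L) (5 * L) 1 (2 ^ (5 * L * m))
        (fun H B => ¬ GG (3 * L) (3 * L) m H B) (fun _ _ => True)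
        (fun H B _ _ => by rw [KRY_card, mul_one])
      have e2 := h2 L m hm
      rw [mul_one] at e1
      set N : ℕ := Set.ncard {HB : Matrix (Fin m) (Fin m) ℤ × (Fin (3 * L + 3 * L) → Fin m → Bool) |
        IsGr HB.1 ∧ ¬ GG (3 * L) (3 * L) m HB.1 HB.2} with hN
      have e3 : A1.ncard ≤ N * 2 ^ (5 * L * m) := e1
      have e4 : A1.ncard * 2 ^ (L + 1) * 2 ^ L ≤ 5 * X * 2 ^ L := by
        calc A1.ncard * 2 ^ (L + 1) * 2 ^ L = A1.ncard * 2 ^ (2 * L + 1) := by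
              rw [mul_assoc, ← pow_add]
              congr 2
              ring
          _ ≤ N * 2 ^ (5 * L * m) * 2 ^ (2 * L + 1) := Nat.mul_le_mul_right _ e3
          _ = N * 2 ^ (2 * L + 1) * 2 ^ (5 * L * m) := by ring
          _ ≤ 5 * m * 2 ^ (m.choose 2 + (3 * L + 3 * L) * m) * 2 ^ (5 * L * m) := Nat.mul_le_mul_right _ e2
          _ = 5 * m * X := by
              rw [hX, mul_assoc, ← pow_add]
              congr 2
              ring
          _ ≤ 5 * 2 ^ L * X := Nat.mul_le_mul_right _ (Nat.mul_le_mul_left _ hm)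
          _ = 5 * X * 2 ^ L := by ring
      exact Nat.le_of_mul_le_mul_right e4 (pow_pos (by norm_num) L)
    have hn2 : A2.ncard * 2 ^ (L + 1) ≤ 4 * X := by
      have e1 := (h3 (3 * L + 3 * L) (5 * L) m L hm).2
      have e2 : A2.ncard * 2 ^ (5 * L) ≤ 2 ^ (4 * L + 1) * X := e1
      have e3 : A2.ncard * 2 ^ (L + 1) * 2 ^ (4 * L) ≤ 4 * X * 2 ^ (4 * L) := by
        calc A2.ncard * 2 ^ (L + 1) * 2 ^ (4 * L) = 2 * (A2.ncard * 2 ^ (5 * L)) := by
              have : (2 : ℕ) ^ (5 * L) = 2 ^ L * 2 ^ (4 * L) := by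
                rw [← pow_add]
                congr 1
                ring
              rw [this, pow_succ]
              ring
          _ ≤ 2 * (2 ^ (4 * L + 1) * X) := Nat.mul_le_mul_left _ e2
          _ = 4 * X * 2 ^ (4 * L) := by ring
      exact Nat.le_of_mul_le_mul_right e3 (pow_pos (by norm_num) _)
    calc _ ≤ (A1.ncard + A2.ncard) * 2 ^ (L + 1) := Nat.mul_le_mul_right _ hc
      _ = A1.ncard * 2 ^ (L + 1) + A2.ncard * 2 ^ (L + 1) := by ring
      _ ≤ 5 * X + 4 * X := Nat.add_le_add hn1 hn2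
      _ = 9 * X := by ring

end Pool.Agent.FS
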